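import Pool.Agent.Helper85_CYD.StG

/-!
# CYD, module LOC: the local form of `f(c w ^ k)`
-/

set_option autoImplicit false

open Polynomial IsLocalRing

namespace Pool.Agent.CYD

theorem hasseDeriv_map_H63 {R S : Type} [CommRing R] [CommRing S] (φ : R →+* S) (i : ℕ)
    (f : R[X]) : hasseDeriv i (f.map φ) = (hasseDeriv i f).map φ := by
  ext n
  rw [hasseDeriv_coeff, coeff_map, coeff_map, hasseDeriv_coeff, map_mul, map_natCast]

/-- module LOC -/
theorem loc (hUnr : UnrStmt) (hRam : RamStmt) : LocStmt := by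
  intro K _ _ A p m c w f hp hpm hpA hc hw hf hs
  obtain ⟨hw1, hass, hk⟩ := hRam K A p w hp hpA hw
  set s := mu A f c with hsdef
  set a := residue A c with ha
  have hm0 : m ≠ 0 := by
    rintro rfl
    exact hpm (dvd_zero p)
  have ha0 : a ≠ 0 := by
    intro h
    have h1 : a ^ m = 1 := by rw [ha, ← map_pow, hc, map_one]
    rw [h, zero_pow hm0] at h1
    exact zero_ne_one h1
  set P : A[X] := taylor c (f.map (Int.castRingHom A)) with hP
  -- the coefficients of `P`
  have hcoef : ∀ i, P.coeff i = aeval c (hasseDeriv i f) := by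
    intro i
    rw [hP, taylor_coeff, hasseDeriv_map_H63, eval_map, aeval_def]
    rfl
  have hPres : P.map (residue A) = taylor a (red (ResidueField A) f) := by
    rw [hP, map_taylor, Polynomial.map_map]
    unfold red
    congr 2
  obtain ⟨q, hq, hqa⟩ : ∃ q : (ResidueField A)[X], red (ResidueField A) f = (X - C a) ^ s * q ∧
      q.eval a ≠ 0 := by
    obtain ⟨q, hq, hqn⟩ := exists_eq_pow_rootMultiplicity_mul_and_not_dvd _ hf a
    refine ⟨q, hq, ?_⟩
    intro h
    exact hqn (dvd_iff_isRoot.mpr h)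
  have hPres2 : P.map (residue A) = X ^ s * taylor a q := by
    rw [hPres, hq, taylor_mul, taylor_pow, map_sub, taylor_X, taylor_C]
    ring
  have hlow : ∀ i < s, residue A (P.coeff i) = 0 := by
    intro i hi
    rw [← coeff_map, hPres2, coeff_X_pow_mul']
    rw [if_neg (by omega)]
  have hmid : residue A (P.coeff s) = q.eval a := by
    rw [← coeff_map, hPres2, coeff_X_pow_mul', if_pos le_rfl, Nat.sub_self, taylor_coeff_zero]
  have hdiv : ∀ i < s, (w - 1) ^ (s + 1) ∣ P.coeff i := by
    intro i hi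
    have h1 : aeval (residue A c) (hasseDeriv i f) = 0 := by
      have h2 := hlow i hi
      rw [hcoef] at h2
      rw [← h2, aeval_def, aeval_def, hom_eval₂]
      congr 1
    have h2 : (p : A) ∣ aeval c (hasseDeriv i f) := hUnr K A p m c _ hp hpm hpA hc h1
    rw [hcoef]
    refine (pow_dvd_pow _ ?_).trans (hass.dvd'.trans h2)
    omega
  refine ⟨q.eval a * a ^ s, mul_ne_zero hqa (pow_ne_zero _ ha0), ?_⟩
  intro k hpk
  obtain ⟨t, ht, htk⟩ := hk k
  set y : A := c * (w ^ k - 1) with hy
  have hev : aeval (c * w ^ k) f = P.eval y := by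
    rw [hP, taylor_eval, eval_map, aeval_def]
    congr 1
    rw [hy]
    ring
  set N := max (P.natDegree + 1) (s + 1) with hN
  have hsum : P.eval y = ∑ i ∈ Finset.range N, P.coeff i * y ^ i :=
    eval_eq_sum_range' (by omega) y
  have hsN : s ∈ Finset.range N := Finset.mem_range.mpr (by omega)
  rw [← Finset.add_sum_erase _ _ hsN] at hsum
  have hyw : y = (w - 1) * (c * t) := by rw [hy, ht]; ring
  have hrest : (w - 1) ^ (s + 1) ∣ ∑ i ∈ (Finset.range N).erase s, P.coeff i * y ^ i := by
    refine Finset.dvd_sum fun i hi => ?_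
    have hne : i ≠ s := Finset.ne_of_mem_erase hi
    rcases lt_or_gt_of_ne hne with h | h
    · exact (hdiv i h).mul_right _
    · refine Dvd.dvd.mul_left ?_ _
      rw [hyw, mul_pow]
      exact (pow_dvd_pow _ h).mul_right _
  obtain ⟨E, hE⟩ := hrest
  refine ⟨P.coeff s * (c * t) ^ s + (w - 1) * E, ?_, ?_⟩
  · rw [map_add, map_mul, map_mul, hmid, map_pow, map_mul, htk]
    have h0 : residue A (w - 1) = 0 := (residue_eq_zero_iff _).mpr hw1
    rw [h0]
    ring
  · rw [hev, hsum, hE, hyw, mul_pow]
    ring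

end Pool.Agent.CYD
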