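import Pool.Agent.Helper85_CYD.St2

/-!
# CYD, module POL: one step of the descent
-/

set_option autoImplicit false

open Polynomial

namespace Pool.Agent.CYD

namespace H63

variable {L : Type} [Field L]

theorem iter_zero {m D κ : ℕ} (hm : 1 ≤ m) (hD : 2 ≤ D) (hκ : κ.Coprime m) (N : ℕ → ℕ)
    (hper : ∀ b b' : ℕ, b ≡ b' [MOD m] → N b = N b')
    (h : ∀ b : ℕ, b.Coprime m → N b = N (κ * b) * D) (b : ℕ) (hb : b.Coprime m) : N b = 0 := by
  have h1 : ∀ j : ℕ, N b = N (κ ^ j * b) * D ^ j := by
    intro j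
    induction j with
    | zero => simp
    | succ j ih =>
      have hc : (κ ^ j * b).Coprime m := Nat.Coprime.mul_left (hκ.pow_left j) hb
      rw [ih, h _ hc, pow_succ', ← mul_assoc, pow_succ', mul_assoc, mul_assoc]
  have h2 := h1 m.totient
  have h3 : κ ^ m.totient * b ≡ b [MOD m] := by
    have := (Nat.ModEq.pow_totient hκ).mul_right b
    rwa [one_mul] at this
  rw [hper _ _ h3] at h2
  have h4 : 2 ≤ D ^ m.totient :=
    hD.trans (Nat.le_self_pow (Nat.totient_pos.mpr hm).ne' D)
  by_contra h0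
  have h5 : N b * 2 ≤ N b * D ^ m.totient := Nat.mul_le_mul_left _ h4
  omega

end H63

open H63 in
/-- module POL -/
theorem pol : PolStmt := by
  classical
  intro L _ m D κ hm hD0 hD hκ A B hB hper heq
  -- lowest terms
  let g : ℕ → L[X] := fun b => EuclideanDomain.gcd (A b) (B b)
  let α : ℕ → L[X] := fun b => A b / g b
  let β : ℕ → L[X] := fun b => B b / g b
  have hg0 : ∀ b, g b ≠ 0 := fun b h => hB b (EuclideanDomain.gcd_eq_zero_iff.mp h).2
  have hA : ∀ b, A b = g b * α b := fun b =>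
    (EuclideanDomain.mul_div_cancel' (hg0 b) (EuclideanDomain.gcd_dvd_left _ _)).symm
  have hBe : ∀ b, B b = g b * β b := fun b =>
    (EuclideanDomain.mul_div_cancel' (hg0 b) (EuclideanDomain.gcd_dvd_right _ _)).symm
  have hβ0 : ∀ b, β b ≠ 0 := fun b h => hB b (by rw [hBe b, h, mul_zero])
  have hcop : ∀ b, IsCoprime (α b) (β b) := by
    intro b
    have h1 : g b = A b * EuclideanDomain.gcdA (A b) (B b) + B b * EuclideanDomain.gcdB (A b) (B b) :=
      EuclideanDomain.gcd_eq_gcd_ab _ _
    refine ⟨EuclideanDomain.gcdA (A b) (B b), EuclideanDomain.gcdB (A b) (B b), ?_⟩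
    apply mul_left_cancel₀ (hg0 b)
    rw [mul_one]
    conv_rhs => rw [h1]
    conv_rhs => rw [hA b, hBe b]
    conv_lhs => rw [hA b, hBe b]
    ring
  have hper' : ∀ b b' : ℕ, b ≡ b' [MOD m] → α b = α b' ∧ β b = β b' := by
    intro b b' h
    obtain ⟨h1, h2⟩ := hper b b' h
    have h3 : g b = g b' := by
      show EuclideanDomain.gcd (A b) (B b) = EuclideanDomain.gcd (A b') (B b')
      rw [h1, h2]
    exact ⟨by show A b / g b = A b' / g b'; rw [h1, h3],
      by show B b / g b = B b' / g b'; rw [h2, h3]⟩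
  have hDpos : 0 < D := by omega
  -- the reduced equation
  have hred : ∀ b : ℕ, b.Coprime m → ∃ c : L,
      C (D : L) * expand L D (α (κ * b)) * β b - α b * expand L D (β (κ * b)) =
        C c * (expand L D (β (κ * b)) * β b) := by
    intro b hb
    obtain ⟨c, hc⟩ := heq b hb
    refine ⟨c, ?_⟩
    have hE : expand L D (g (κ * b)) ≠ 0 := by
      intro h
      exact hg0 (κ * b) ((expand_eq_zero hDpos).mp h)
    have h1 : g b * expand L D (g (κ * b)) ≠ 0 := mul_ne_zero (hg0 b) hE
    apply mul_left_cancel₀ h1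
    rw [hA b, hBe b, hA (κ * b), hBe (κ * b), map_mul, map_mul] at hc
    linear_combination hc
  have hdegβ : ∀ b : ℕ, b.Coprime m → (β b).natDegree = (β (κ * b)).natDegree * D := by
    intro b hb
    obtain ⟨c, hc⟩ := hred b hb
    have h1 : β b ∣ α b * expand L D (β (κ * b)) := by
      refine ⟨C (D : L) * expand L D (α (κ * b)) - C c * expand L D (β (κ * b)), ?_⟩
      linear_combination -hc
    have h2 : β b ∣ expand L D (β (κ * b)) := (hcop b).symm.dvd_of_dvd_mul_left h1
    have h3 : expand L D (β (κ * b)) ∣ C (D : L) * expand L D (α (κ * b)) * β b := by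
      refine ⟨α b + C c * β b, ?_⟩
      linear_combination hc
    have h4 : IsCoprime (expand L D (α (κ * b))) (expand L D (β (κ * b))) :=
      (hcop (κ * b)).map (expand L D : L[X] →+* L[X])
    have h5 : expand L D (β (κ * b)) ∣ β b := by
      have h6 : expand L D (β (κ * b)) ∣ expand L D (α (κ * b)) * (C (D : L) * β b) := by
        have : expand L D (α (κ * b)) * (C (D : L) * β b) =
            C (D : L) * expand L D (α (κ * b)) * β b := by ring
        rw [this]; exact h3
      have h7 := h4.symm.dvd_of_dvd_mul_left h6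
      have hu : IsUnit (C (D : L)) := isUnit_C.mpr (isUnit_iff_ne_zero.mpr hD0)
      exact (hu.dvd_mul_left).mp h7
    have h6 : Associated (β b) (expand L D (β (κ * b))) := associated_of_dvd_dvd h2 h5
    rw [natDegree_eq_of_degree_eq (degree_eq_degree_of_associated h6), natDegree_expand]
  have hβdeg : ∀ b : ℕ, b.Coprime m → (β b).natDegree = 0 :=
    iter_zero hm hD hκ (fun b => (β b).natDegree)
      (fun b b' h => by simp only [(hper' b b' h).2]) hdegβ
  have hβc : ∀ b : ℕ, b.Coprime m → ∃ u : L, u ≠ 0 ∧ β b = C u := by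
    intro b hb
    obtain ⟨u, hu⟩ := natDegree_eq_zero.mp (hβdeg b hb)
    refine ⟨u, ?_, hu.symm⟩
    rintro rfl
    exact hβ0 b (by rw [← hu, C_0])
  have hκc : ∀ b : ℕ, b.Coprime m → (κ * b).Coprime m := fun b hb => Nat.Coprime.mul_left hκ hb
  have hdegα : ∀ b : ℕ, b.Coprime m → (α b).natDegree = (α (κ * b)).natDegree * D := by
    intro b hb
    obtain ⟨c, hc⟩ := hred b hb
    obtain ⟨u, hu, hub⟩ := hβc b hb
    obtain ⟨u', hu', hub'⟩ := hβc (κ * b) (hκc b hb)
    rw [hub, hub', expand_C] at hc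
    have h1 : C u' * α b = C (D * u) * expand L D (α (κ * b)) - C (c * u' * u) := by
      rw [C_mul, C_mul, C_mul]
      linear_combination -hc
    have h2 : (C u' * α b).natDegree = (α b).natDegree := natDegree_C_mul hu'
    rw [← h2, h1, natDegree_sub_C, natDegree_C_mul (mul_ne_zero hD0 hu), natDegree_expand]
  have hαdeg : ∀ b : ℕ, b.Coprime m → (α b).natDegree = 0 :=
    iter_zero hm hD hκ (fun b => (α b).natDegree)
      (fun b b' h => by simp only [(hper' b b' h).1]) hdegα
  intro b hb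
  obtain ⟨v, hv⟩ := natDegree_eq_zero.mp (hαdeg b hb)
  obtain ⟨u, hu, hub⟩ := hβc b hb
  refine ⟨v * u⁻¹, ?_⟩
  rw [hA b, hBe b, hub, ← hv, C_mul]
  have h1 : (C u⁻¹ : L[X]) * C u = 1 := by rw [← C_mul, inv_mul_cancel₀ hu, C_1]
  linear_combination (-(C v * g b)) * h1

end Pool.Agent.CYD
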